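import Pool.Agent.helper17.EXC.Spec

/-!
# Row `en:GEN`: the group is generated by the root elements of the simple roots
-/

set_option autoImplicit false

open Finset

namespace Pool.Agent.EXC

theorem GEN_aux (hRFP : RFP_stmt) (hEXF : EXF_stmt) (hACT : ACT_stmt) (hCOL : COL_stmt) {n : ℕ}
    (C : Matrix (Fin n) (Fin n) ℤ) [IsC C] (F : Type) [Field F]
    (hβ : ∀ α, ip C α α = 2 → ∃ β, ip C β β = 2 ∧ ip C α β = -1) (σ : ℤ) (hσ : σ = 1 ∨ σ = -1) :
    ∀ (N : ℕ) (γ : Fin n → ℤ), ip C γ γ = 2 → Pos γ → (∑ i, γ i) ≤ (N : ℤ) → ∀ (t : F)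
      (g : Lm C F ≃ₗ[F] Lm C F), IsX C (E C (σ • γ)) t g →
      g ∈ Subgroup.closure {g : Lm C F ≃ₗ[F] Lm C F | ∃ i t, IsX C (E C (sr i)) t g ∨ IsX C (E C (-sr i)) t g} := by
  obtain ⟨-, hEx, hE3, -⟩ := hEXF n C F hβ
  have hσ2 : σ * σ = 1 := by rcases hσ with h | h <;> rw [h] <;> norm_num
  have hip : ∀ v w : Fin n → ℤ, ip C (σ • v) (σ • w) = ip C v w := by
    intro v w
    rw [ip_smul_left, ip_smul_right, ← mul_assoc, hσ2, one_mul]
  -- generators
  have hgen : ∀ (i : Fin n) (t : F) (g : Lm C F ≃ₗ[F] Lm C F), IsX C (E C (σ • sr i)) t g →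
      g ∈ Subgroup.closure {g : Lm C F ≃ₗ[F] Lm C F | ∃ i t, IsX C (E C (sr i)) t g ∨ IsX C (E C (-sr i)) t g} := by
    intro i t g hg
    refine Subgroup.subset_closure ⟨i, t, ?_⟩
    rcases hσ with h | h
    · left
      rwa [h, one_smul] at hg
    · right
      rwa [h, neg_one_smul] at hg
  intro N
  induction N with
  | zero =>
    intro γ hγ hpos hsum t g hg
    rcases (hRFP n C γ hγ hpos).2 with ⟨i, rfl⟩ | ⟨i, -, hi⟩
    · exact hgen i t g hg
    · exfalso
      have h1 : γ i ≤ ∑ j, γ j := Finset.single_le_sum (fun j _ => hpos j) (Finset.mem_univ i)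
      rw [Nat.cast_zero] at hsum
      omega
  | succ N ih =>
    intro γ hγ hpos hsum t g hg
    by_cases hs : ∃ i, γ = sr i
    · obtain ⟨i, rfl⟩ := hs
      exact hgen i t g hg
    obtain ⟨i, hi1, hi⟩ : ∃ i, ip C γ (sr i) = 1 ∧ 0 < γ i := by
      rcases (hRFP n C γ hγ hpos).2 with h | h
      · exact absurd h hs
      · exact h
    have hne : γ ≠ sr i := fun h => hs ⟨i, h⟩
    obtain ⟨-, -, hpos'⟩ := (hRFP n C γ hγ hpos).1 i hne
    have hp' := hpos' hi1
    have hr' : ip C (γ - sr i) (γ - sr i) = 2 := (sub_root_iff hγ (ip_sr_self C i)).2 hi1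
    have hsum' : ∑ j, (γ - sr i) j ≤ (N : ℤ) := by
      have h1 : ∑ j, (γ - sr i) j = ∑ j, γ j - 1 := by
        simp [sr, Finset.sum_sub_distrib]
      rw [h1]
      push_cast at hsum
      linarith
    -- the two roots
    set a : Fin n → ℤ := σ • sr i with ha
    set b : Fin n → ℤ := σ • (γ - sr i) with hb
    have hra : ip C a a = 2 := by rw [ha, hip, ip_sr_self]
    have hrb : ip C b b = 2 := by rw [hb, hip, hr']
    have hab : ip C a b = -1 := by
      rw [ha, hb, hip, ip_sub_right, ip_sr_self, ip_comm, hi1]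
      norm_num
    have hsumab : a + b = σ • γ := by
      rw [ha, hb, ← smul_add]
      congr 1
      abel
    have hrab : ip C (a + b) (a + b) = 2 := by rw [hsumab, hip, hγ]
    have hbab : ip C b (a + b) = 1 := by
      rw [ip_add_right, ip_comm C b a, hab, hrb]
      norm_num
    -- the group elements
    obtain ⟨-, -, -, -, hexA, -⟩ := hE3 (E C a) (hEx a hra)
    obtain ⟨-, -, -, -, hexB, -, -, hconjB, -⟩ := hE3 (E C b) (hEx b hrb)
    obtain ⟨ka, hkaG, hka⟩ := hexA (t * (sg C a b : F))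
    obtain ⟨kb, hkbG, hkb⟩ := hexB 1
    have hka' := hgen i _ ka hka
    have hkb' := ih (γ - sr i) hr' hp' hsum' 1 kb hkb
    have hcon := hconjB ka hkaG 1 kb hkb
    have hkaE : ka (E C b) = ((1 : F) • E C b + t • E C (a + b) : Lm C F) := by
      rw [hka, (hACT n C F a (t * (sg C a b : F)) hra).2.1 b hrb hab, mul_assoc, sg_sq, mul_one, one_smul]
    have hg' : g = kb⁻¹ * (ka * kb * ka⁻¹) := by
      rw [eq_inv_mul_iff_mul_eq]
      refine LinearEquiv.ext fun v => ?_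
      rw [hcon v, hkaE, ((hCOL n C F b (a + b) hrb hrab).1 hbab).1 1 t 1 v, mul_one, mul_one,
        LinearEquiv.mul_apply, hkb, hg v, hsumab]
    rw [hg']
    exact Subgroup.mul_mem _ (Subgroup.inv_mem _ hkb')
      (Subgroup.mul_mem _ (Subgroup.mul_mem _ hka' hkb') (Subgroup.inv_mem _ hka'))

theorem GEN (hDIC : DIC_stmt) (hRFP : RFP_stmt) (hEXF : EXF_stmt) (hACT : ACT_stmt) (hCOL : COL_stmt) : GEN_stmt := by
  intro n C _ F _ hβ γ hγ t g hg
  rcases hDIC n C γ hγ with h | h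
  · refine GEN_aux hRFP hEXF hACT hCOL C F hβ 1 (Or.inl rfl) (∑ i, γ i).toNat γ hγ h (Int.self_le_toNat _) t g ?_
    rwa [one_smul]
  · refine GEN_aux hRFP hEXF hACT hCOL C F hβ (-1) (Or.inr rfl) (∑ i, (-γ) i).toNat (-γ) (neg_root C hγ) h
      (Int.self_le_toNat _) t g ?_
    rwa [neg_one_smul, neg_neg]

end Pool.Agent.EXC
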