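import Pool.Agent.helper32.EXC.Spec11

/-!
# Row `en11:T11`: ten conjugates generate a group of order divisible by 11 in `E₈(q)` (assembly)
-/

set_option autoImplicit false

open Finset

namespace Pool.Agent.EXC

section
variable {n : ℕ} {C : Matrix (Fin n) (Fin n) ℤ} [IsC C] {F : Type} [Field F]

theorem T11_ex {j0 : Fin n} {θ : Fin n → ℤ} {δ : Fin 5 → Fin n} (hE : IsE C j0 θ δ) {a b : Lm C F} {m : ℤ}
    (h : Tp C θ a b m) : Ex C a ∧ Ex C b := by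
  obtain ⟨k, hk, β, hβ, -, c, c', hc, hc', h1, h2⟩ := h
  refine ⟨⟨k⁻¹, inv_mem hk, θ, hE.th2, c, hc, ?_⟩, ⟨k⁻¹, inv_mem hk, β, hβ, c', hc', ?_⟩⟩
  · rw [← map_smul, ← h1]
    exact (LinearEquiv.symm_apply_apply k a).symm
  · rw [← map_smul, ← h2]
    exact (LinearEquiv.symm_apply_apply k b).symm

theorem T11_isx {a : Lm C F} {t : F} {g h : Lm C F ≃ₗ[F] Lm C F} (hg : IsX C a t g) (hh : IsX C a t h) : g = h :=
  LinearEquiv.ext fun v => by rw [hg v, hh v]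

theorem T11_conj (hT11CNJ : T11CNJ_stmt) (hEXF : EXF_stmt) {j0 : Fin n} {θ : Fin n → ℤ} {δ : Fin 5 → Fin n}
    (hE : IsE C j0 θ δ) (hβ : ∀ α, ip C α α = 2 → ∃ β, ip C β β = 2 ∧ ip C α β = -1) {m : ℤ}
    (hm : m = -2 ∨ m = -1 ∨ m = 0) {σ : F} {Y y : Lm C F ≃ₗ[F] Lm C F} (hY : CT C θ m σ Y) (hy : CT C θ m σ y) :
    ∃ h ∈ GE C F, y = h * Y * h⁻¹ := by
  obtain ⟨a, b, g, h, hT, hf, hg, hh, rfl⟩ := hY
  obtain ⟨a', b', g', h', hT', hf', hg', hh', rfl⟩ := hy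
  obtain ⟨k, hk, hka, hkb⟩ := hT11CNJ n C F j0 θ δ hE a b a' b' m hm hT hT' (hf.trans hf'.symm)
  obtain ⟨ea, eb⟩ := T11_ex hE hT
  have hX := (hEXF n C F hβ).2.2.1
  have h1 := (hX a ea).2.2.2.2.2.2.2.1 k hk 1 g hg
  have h2 := (hX b eb).2.2.2.2.2.2.2.1 k hk 1 h hh
  rw [hka] at h1
  rw [hkb] at h2
  refine ⟨k, hk, ?_⟩
  rw [T11_isx hg' h1, T11_isx hh' h2]
  group

theorem T11_main (hT11GR2 : T11GR2_stmt) (hFIX : FIX_stmt) {j0 : Fin n} {θ : Fin n → ℤ} {δ : Fin 5 → Fin n}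
    (hE : IsE C j0 θ δ) [Finite F] (x : MulAut (EG C F)) (t : EG C F) (y : Fin 5 → (Lm C F ≃ₗ[F] Lm C F))
    (hy : ∀ i, ∃ h ∈ GE C F, y i = h * ((x t * t⁻¹ : EG C F) : Lm C F ≃ₗ[F] Lm C F) * h⁻¹)
    (z : Lm C F ≃ₗ[F] Lm C F) (hz : z ∈ Subgroup.closure (Set.range y)) (r : ℕ) (hr : ∀ N : ℕ, z ^ N = 1 → r ∣ N) :
    2 * 5 ∈ Pool.Agent.GS.CSet r x := by
  classical
  have : Finite (Lm C F ≃ₗ[F] Lm C F) := Finite.of_injective (fun g => (g : Lm C F → Lm C F)) DFunLike.coe_injective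
  choose h hh hyh using hy
  have hr2 : Set.range y = (GE C F).subtype '' Set.range fun i => (⟨h i, hh i⟩ : EG C F) * (x t * t⁻¹) * (⟨h i, hh i⟩ : EG C F)⁻¹ := by
    rw [← Set.range_comp]
    refine congrArg Set.range (funext fun i => ?_)
    rw [hyh i]
    rfl
  rw [hr2, ← MonoidHom.map_closure] at hz
  obtain ⟨z', hz', rfl⟩ := hz
  refine hT11GR2 (EG C F) x t r 5 (fun i => ⟨h i, hh i⟩) z' (by norm_num) hz' fun N hN => hr N ?_
  have h1 : MulAut.conj (z' ^ N) = 1 := by rw [map_pow, hN]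
  have h2 : z' ^ N = 1 := by
    refine (hFIX n C F j0 θ δ hE).2 _ fun g => ?_
    have h3 := DFunLike.congr_fun h1 g
    rw [MulAut.conj_apply, MulAut.one_apply] at h3
    exact mul_inv_eq_iff_eq_mul.1 h3
  have h4 := congrArg (GE C F).subtype h2
  rwa [map_pow, map_one] at h4

end

theorem T11 (hNBR : NBR_stmt) (hT11YCL : T11YCL_stmt) (hT11CNJ : T11CNJ_stmt) (hT11GR2 : T11GR2_stmt) (hT11ZM1 : T11ZM1_stmt)
    (hT11ZM2 : T11ZM2_stmt) (hDE8 : DE8_stmt) (hFIX : FIX_stmt) (hEXF : EXF_stmt) : T11_stmt := by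
  intro _ F _ _ x hRA hx
  have hE : IsE CartanMatrix.E₈ 7 th8 ![0, 2, 3, 4, 5] := hDE8.2
  have hβ := (hNBR 8 CartanMatrix.E₈ 7 th8 _ hE).1
  obtain ⟨t, m, σ, hm, hσ, hCT⟩ := hT11YCL 8 CartanMatrix.E₈ F 7 th8 _ hE x hRA hx
  rcases hm with h2 | h10
  · subst h2
    obtain ⟨y, hy, hN⟩ := hT11ZM2 F 7 _ hE σ (hσ.2 rfl)
    have hmem : ∀ i, y i ∈ Subgroup.closure (Set.range y) := fun i => Subgroup.subset_closure ⟨i, rfl⟩
    exact T11_main hT11GR2 hFIX hE x t y (fun i => T11_conj hT11CNJ hEXF hE hβ (Or.inl rfl) hCT (hy i)) _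
      (mul_mem (mul_mem (mul_mem (mul_mem (hmem 0) (hmem 1)) (inv_mem (hmem 2))) (hmem 3)) (inv_mem (hmem 4))) 11 hN
  · have hσ0 : σ = 0 := by
      by_contra hne
      have := hσ.1 hne
      omega
    subst hσ0
    obtain ⟨y, hy, hN⟩ := hT11ZM1 F 7 _ hE m h10
    have hmem : ∀ i, y i ∈ Subgroup.closure (Set.range y) := fun i => Subgroup.subset_closure ⟨i, rfl⟩
    exact T11_main hT11GR2 hFIX hE x t y (fun i => T11_conj hT11CNJ hEXF hE hβ (Or.inr h10) hCT (hy i)) _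
      (mul_mem (mul_mem (mul_mem (mul_mem (hmem 0) (hmem 1)) (hmem 2)) (hmem 3)) (hmem 4)) 11 hN

end Pool.Agent.EXC
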